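import Mathlib

/-!
# The recurrence `L_{v0} = L_{1v} + q L_{0v}` for link symmetric functions

The letters of a binary word `v` are Booleans (`true` is the letter `1`, `false` the letter `0`),
words of length `n` are functions on `Fin n`, the variables `x_1, x_2, ...` are indexed by `ℕ+`,
and `ℤ[[q,t]]` is `MvPowerSeries (Fin 2) ℤ` with `q = X 0` and `t = X 1`.
-/

namespace Pool.Agent.Results.MP_c90a8c_co.LinkRecurrence

open Finset

/-- `area γ = ∑ i, γ i - #{i : γ i > 0}` (the subtraction is never truncated,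
see `card_pos_le_sum`). -/
def area {n : ℕ} (γ : Fin n → ℕ) : ℕ :=
  (∑ i, γ i) - (univ.filter fun i => 0 < γ i).card

/-- `dinv (γ, π) = #{i < j : γ i = γ j, π i > π j} + #{i < j : γ j = γ i + 1, π i < π j}`. -/
def dinv {n : ℕ} (γ : Fin n → ℕ) (π : Fin n → ℕ+) : ℕ :=
  (univ.filter fun p : Fin n × Fin n =>
      p.1 < p.2 ∧ γ p.1 = γ p.2 ∧ π p.1 > π p.2).card +
    (univ.filter fun p : Fin n × Fin n =>
      p.1 < p.2 ∧ γ p.2 = γ p.1 + 1 ∧ π p.1 < π p.2).card

/-- The exponent vector of the monomial `x^π = ∏ i, x_{π i}`. -/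
noncomputable def content {n : ℕ} (π : Fin n → ℕ+) : ℕ+ →₀ ℕ :=
  ∑ i, Finsupp.single (π i) 1

/-- The pairs `(γ, π)` with `γ i = 0 ↔ v i = 1`, `area γ = a`, `dinv (γ, π) = b` and
`x^π = x^α`. -/
def pairs {n : ℕ} (v : Fin n → Bool) (a b : ℕ) (α : ℕ+ →₀ ℕ) :
    Set ((Fin n → ℕ) × (Fin n → ℕ+)) :=
  {p | (∀ i, p.1 i = 0 ↔ v i = true) ∧ area p.1 = a ∧ dinv p.1 p.2 = b ∧ content p.2 = α}

/-- The link symmetric function
`L_v = ∑_{(γ, π)} q^{area γ} t^{dinv (γ, π)} x^π`, a formal power series in the `x_i` with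
coefficients in `ℤ[[q,t]]`: the coefficient of `q^a t^b x^α` is the number of pairs `(γ, π)` with
`γ i = 0 ↔ v i = 1`, `area γ = a`, `dinv (γ, π) = b` and `x^π = x^α`
(a finite number, see `finite_pairs`). -/
noncomputable def L {n : ℕ} (v : Fin n → Bool) : MvPowerSeries ℕ+ (MvPowerSeries (Fin 2) ℤ) :=
  fun α m => ((pairs v (m 0) (m 1) α).ncard : ℤ)

/-- The variable `q` of `ℤ[[q,t]]`. -/
noncomputable def q : MvPowerSeries (Fin 2) ℤ := MvPowerSeries.X 0

/-! ### Auxiliary facts -/

lemma card_pos_le_sum {n : ℕ} (γ : Fin n → ℕ) :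
    (univ.filter fun i => 0 < γ i).card ≤ ∑ i, γ i := by
  rw [card_eq_sum_ones, sum_filter]
  apply sum_le_sum
  intro i _
  split_ifs with h
  · exact h
  · exact Nat.zero_le _

lemma area_eq {n : ℕ} (γ : Fin n → ℕ) : area γ = ∑ i, (γ i - 1) := by
  unfold area
  have h : ∑ i, γ i = ∑ i, (γ i - 1) + (univ.filter fun i => 0 < γ i).card := by
    rw [card_eq_sum_ones, sum_filter, ← sum_add_distrib]
    apply sum_congr rfl
    intro i _
    split_ifs with h
    · omega
    · omega
  rw [h]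
  omega

lemma dinv_eq {n : ℕ} (γ : Fin n → ℕ) (π : Fin n → ℕ+) :
    dinv γ π = (∑ i, ∑ j, if i < j ∧ γ i = γ j ∧ π i > π j then 1 else 0) +
      (∑ i, ∑ j, if i < j ∧ γ j = γ i + 1 ∧ π i < π j then 1 else 0) := by
  unfold dinv
  rw [card_eq_sum_ones, card_eq_sum_ones, sum_filter, sum_filter,
    ← univ_product_univ, sum_product, sum_product]

lemma finite_pairs {n : ℕ} (v : Fin n → Bool) (a b : ℕ) (α : ℕ+ →₀ ℕ) :
    (pairs v a b α).Finite := by
  have h1 : (Set.pi Set.univ (fun _ : Fin n => (Set.Iic (a + 1) : Set ℕ))).Finite :=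
    Set.Finite.pi (fun _ => Set.finite_Iic _)
  have h2 : (Set.pi Set.univ (fun _ : Fin n => ((α.support : Finset ℕ+) : Set ℕ+))).Finite :=
    Set.Finite.pi (fun _ => Finset.finite_toSet _)
  refine (h1.prod h2).subset ?_
  rintro ⟨γ, π⟩ ⟨_, ha, _, hc⟩
  simp only at ha hc
  refine ⟨?_, ?_⟩
  · intro i _
    simp only [Set.mem_Iic]
    have h3 : γ i - 1 ≤ ∑ i, (γ i - 1) :=
      single_le_sum (f := fun i => γ i - 1) (fun _ _ => Nat.zero_le _) (mem_univ i)
    rw [← area_eq, ha] at h3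
    omega
  · intro i _
    simp only [mem_coe, Finsupp.mem_support_iff]
    rw [← hc]
    unfold content
    rw [Finsupp.finsetSum_apply]
    have h3 : (Finsupp.single (π i) 1 : ℕ+ →₀ ℕ) (π i) ≤
        ∑ j, (Finsupp.single (π j) 1 : ℕ+ →₀ ℕ) (π i) :=
      single_le_sum (f := fun j => (Finsupp.single (π j) 1 : ℕ+ →₀ ℕ) (π i))
        (fun _ _ => Nat.zero_le _) (mem_univ i)
    rw [Finsupp.single_eq_same] at h3
    omega

/-! ### The rotation -/

/-- Move the first letter `(g, p)` to the end, as `(g + 1, p)`. -/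
def rot {n : ℕ} (w : (Fin (n + 1) → ℕ) × (Fin (n + 1) → ℕ+)) :
    (Fin (n + 1) → ℕ) × (Fin (n + 1) → ℕ+) :=
  (Fin.snoc (α := fun _ => ℕ) (Fin.tail w.1) (w.1 0 + 1),
    Fin.snoc (α := fun _ => ℕ+) (Fin.tail w.2) (w.2 0))

lemma rot_injective {n : ℕ} : Function.Injective (rot (n := n)) := by
  rintro ⟨γ, π⟩ ⟨γ', π'⟩ h
  simp only [rot, Prod.mk.injEq] at h
  obtain ⟨h1, h2⟩ := h
  have e1 := congrFun h1 (Fin.last n)
  have e2 := congrFun h2 (Fin.last n)
  simp only [Fin.snoc_last] at e1 e2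
  have e3 : ∀ i : Fin n, γ i.succ = γ' i.succ := by
    intro i
    have := congrFun h1 i.castSucc
    simpa only [Fin.snoc_castSucc, Fin.tail] using this
  have e4 : ∀ i : Fin n, π i.succ = π' i.succ := by
    intro i
    have := congrFun h2 i.castSucc
    simpa only [Fin.snoc_castSucc, Fin.tail] using this
  refine Prod.ext ?_ ?_
  · funext i
    refine Fin.cases ?_ e3 i
    simpa using e1
  · funext i
    refine Fin.cases ?_ e4 i
    exact e2

lemma dinv_snoc {n : ℕ} (γ : Fin n → ℕ) (π : Fin n → ℕ+) (g : ℕ) (p : ℕ+) :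
    dinv (Fin.snoc (α := fun _ => ℕ) γ g) (Fin.snoc (α := fun _ => ℕ+) π p) =
      dinv γ π + ((∑ i, if γ i = g ∧ π i > p then 1 else 0) +
        (∑ i, if g = γ i + 1 ∧ π i < p then 1 else 0)) := by
  rw [dinv_eq, dinv_eq]
  simp only [Fin.sum_univ_castSucc, Fin.snoc_castSucc, Fin.snoc_last, Fin.castSucc_lt_castSucc_iff,
    Fin.castSucc_lt_last, true_and, sum_add_distrib, lt_self_iff_false, false_and, if_false,
    add_zero]
  have h : ∀ i : Fin n, ¬ (Fin.last n < i.castSucc) := fun i => not_lt.2 (Fin.le_last _)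
  simp only [h, false_and, if_false, sum_const_zero, add_zero]
  ring

lemma dinv_cons {n : ℕ} (γ : Fin n → ℕ) (π : Fin n → ℕ+) (g : ℕ) (p : ℕ+) :
    dinv (Fin.cons (α := fun _ => ℕ) g γ) (Fin.cons (α := fun _ => ℕ+) p π) =
      dinv γ π + ((∑ i, if g = γ i ∧ p > π i then 1 else 0) +
        (∑ i, if γ i = g + 1 ∧ p < π i then 1 else 0)) := by
  rw [dinv_eq, dinv_eq]
  simp only [Fin.sum_univ_succ, Fin.cons_succ, Fin.cons_zero, Fin.succ_lt_succ_iff,
    Fin.succ_pos, true_and, false_and, if_false, zero_add, Fin.not_lt_zero]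
  ring

lemma dinv_rot {n : ℕ} (w : (Fin (n + 1) → ℕ) × (Fin (n + 1) → ℕ+)) :
    dinv (rot w).1 (rot w).2 = dinv w.1 w.2 := by
  obtain ⟨γ, π⟩ := w
  have e1 : γ = Fin.cons (α := fun _ => ℕ) (γ 0) (Fin.tail γ) := (Fin.cons_self_tail γ).symm
  have e2 : π = Fin.cons (α := fun _ => ℕ+) (π 0) (Fin.tail π) := (Fin.cons_self_tail π).symm
  have h : dinv γ π = dinv (Fin.cons (α := fun _ => ℕ) (γ 0) (Fin.tail γ))
      (Fin.cons (α := fun _ => ℕ+) (π 0) (Fin.tail π)) := by rw [← e1, ← e2]
  simp only [rot]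
  rw [h, dinv_snoc, dinv_cons, add_comm (∑ i, if Fin.tail γ i = γ 0 + 1 ∧ _ then 1 else 0)]
  congr 2
  apply sum_congr rfl
  intro i _
  have : (γ 0 + 1 = Fin.tail γ i + 1 ∧ Fin.tail π i < π 0) ↔
      (γ 0 = Fin.tail γ i ∧ π 0 > Fin.tail π i) := by
    constructor
    · rintro ⟨h1, h2⟩
      exact ⟨by omega, h2⟩
    · rintro ⟨h1, h2⟩
      exact ⟨by omega, h2⟩
  simp only [this]

lemma content_rot {n : ℕ} (w : (Fin (n + 1) → ℕ) × (Fin (n + 1) → ℕ+)) :
    content (rot w).2 = content w.2 := by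
  unfold content rot
  simp only
  rw [Fin.sum_univ_castSucc, Fin.sum_univ_succ (f := fun i => Finsupp.single (w.2 i) 1)]
  simp only [Fin.snoc_castSucc, Fin.snoc_last, Fin.tail]
  rw [add_comm]

lemma area_rot {n : ℕ} (w : (Fin (n + 1) → ℕ) × (Fin (n + 1) → ℕ+)) :
    area (rot w).1 = (if w.1 0 = 0 then 0 else 1) + area w.1 := by
  rw [area_eq, area_eq]
  unfold rot
  simp only
  rw [Fin.sum_univ_castSucc, Fin.sum_univ_succ (f := fun i => w.1 i - 1)]
  simp only [Fin.snoc_castSucc, Fin.snoc_last, Fin.tail]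
  split_ifs with h
  · rw [h]; omega
  · omega

/-- The rotation splits `pairs (v0)` into `pairs (1v)` and `pairs (0v)`. -/
lemma pairs_snoc {n : ℕ} (v : Fin n → Bool) (a b : ℕ) (α : ℕ+ →₀ ℕ) :
    pairs (Fin.snoc (α := fun _ => Bool) v false) a b α =
      rot '' (pairs (Fin.cons (α := fun _ => Bool) true v) a b α ∪
        {w | 1 ≤ a ∧ w ∈ pairs (Fin.cons (α := fun _ => Bool) false v) (a - 1) b α}) := by
  ext w
  constructor
  · rintro ⟨hv, ha, hb, hc⟩
    -- the preimage
    obtain ⟨γ, π⟩ := w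
    simp only at hv ha hb hc
    have hlast : γ (Fin.last n) ≠ 0 := by
      intro h
      have := (hv (Fin.last n)).1 h
      simp at this
    set u : (Fin (n + 1) → ℕ) × (Fin (n + 1) → ℕ+) :=
      (Fin.cons (α := fun _ => ℕ) (γ (Fin.last n) - 1) (Fin.init γ),
        Fin.cons (α := fun _ => ℕ+) (π (Fin.last n)) (Fin.init π)) with hu
    have hrot : rot u = (γ, π) := by
      refine Prod.ext ?_ ?_
      · funext i
        refine Fin.lastCases ?_ (fun j => ?_) i
        · simp only [rot, hu, Fin.snoc_last, Fin.cons_zero]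
          omega
        · simp only [rot, hu, Fin.snoc_castSucc, Fin.tail, Fin.cons_succ, Fin.init]
      · funext i
        refine Fin.lastCases ?_ (fun j => ?_) i
        · simp only [rot, hu, Fin.snoc_last, Fin.cons_zero]
        · simp only [rot, hu, Fin.snoc_castSucc, Fin.tail, Fin.cons_succ, Fin.init]
    have hA := area_rot u
    have hB := dinv_rot u
    have hC := content_rot u
    rw [hrot] at hA hB hC
    simp only at hA hB hC
    rw [ha] at hA
    rw [hb] at hB
    rw [hc] at hC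
    refine ⟨u, ?_, hrot⟩
    have htail : ∀ j : Fin n, u.1 j.succ = 0 ↔ v j = true := by
      intro j
      have := hv j.castSucc
      rw [Fin.snoc_castSucc] at this
      simpa only [hu, Fin.cons_succ, Fin.init] using this
    by_cases h0 : u.1 0 = 0
    · left
      refine ⟨?_, ?_, hB.symm, hC.symm⟩
      · intro i
        refine Fin.cases ?_ (fun j => ?_) i
        · simp [h0]
        · rw [htail, Fin.cons_succ]
      · rw [if_pos h0, zero_add] at hA
        exact hA.symm
    · right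
      rw [if_neg h0] at hA
      refine ⟨by omega, ?_, by omega, hB.symm, hC.symm⟩
      intro i
      refine Fin.cases ?_ (fun j => ?_) i
      · simp [h0]
      · rw [htail, Fin.cons_succ]
  · rintro ⟨u, hu, rfl⟩
    have key : (∀ j : Fin n, u.1 j.succ = 0 ↔ v j = true) →
        ∀ i, (rot u).1 i = 0 ↔ (Fin.snoc (α := fun _ => Bool) v false : Fin (n + 1) → Bool) i = true := by
      intro h i
      refine Fin.lastCases ?_ (fun j => ?_) i
      · simp [rot]
      · simp only [rot, Fin.snoc_castSucc, Fin.tail]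
        exact h j
    rcases hu with ⟨hv, ha, hb, hc⟩ | ⟨h1, hv, ha, hb, hc⟩
    · have h0 : u.1 0 = 0 := by
        have := hv 0
        rw [Fin.cons_zero] at this
        exact this.2 rfl
      refine ⟨key ?_, ?_, ?_, ?_⟩
      · intro j
        have := hv j.succ
        rwa [Fin.cons_succ] at this
      · rw [area_rot, if_pos h0, zero_add, ha]
      · rw [dinv_rot, hb]
      · rw [content_rot, hc]
    · have h0 : u.1 0 ≠ 0 := by
        have := hv 0
        rw [Fin.cons_zero] at this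
        intro h
        simpa using this.1 h
      refine ⟨key ?_, ?_, ?_, ?_⟩
      · intro j
        have := hv j.succ
        rwa [Fin.cons_succ] at this
      · rw [area_rot, if_neg h0, ha]
        omega
      · rw [dinv_rot, hb]
      · rw [content_rot, hc]

lemma ncard_pairs_snoc {n : ℕ} (v : Fin n → Bool) (a b : ℕ) (α : ℕ+ →₀ ℕ) :
    (pairs (Fin.snoc (α := fun _ => Bool) v false) a b α).ncard =
      (pairs (Fin.cons (α := fun _ => Bool) true v) a b α).ncard +
        (if 1 ≤ a then (pairs (Fin.cons (α := fun _ => Bool) false v) (a - 1) b α).ncard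
          else 0) := by
  have hdisj : Disjoint (pairs (Fin.cons (α := fun _ => Bool) true v) a b α)
      {w | 1 ≤ a ∧ w ∈ pairs (Fin.cons (α := fun _ => Bool) false v) (a - 1) b α} := by
    rw [Set.disjoint_left]
    rintro w ⟨hv, _⟩ ⟨_, hv', _⟩
    have h1 := hv 0
    have h2 := hv' 0
    rw [Fin.cons_zero] at h1 h2
    have := h2.1 (h1.2 rfl)
    simp at this
  rw [pairs_snoc, Set.ncard_image_of_injective _ rot_injective,
    Set.ncard_union_eq hdisj (finite_pairs _ _ _ _)
      ((finite_pairs (Fin.cons (α := fun _ => Bool) false v) (a - 1) b α).subset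
        (fun w hw => hw.2))]
  congr 1
  split_ifs with h
  · congr 1
    ext w
    simp [h]
  · rw [Set.ncard_eq_zero (Set.finite_empty.subset (by intro w hw; exact absurd hw.1 h))]
    ext w
    simp [h]

/-- **Bergeron's recurrence.** For every binary word `v` (of any length `n`, in particular for
every `n ≥ 1`), `L_{v0} = L_{1v} + q L_{0v}`. -/
theorem result (n : ℕ) (v : Fin n → Bool) :
    L (Fin.snoc (α := fun _ => Bool) v false) =
      L (Fin.cons (α := fun _ => Bool) true v) +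
        MvPowerSeries.C q * L (Fin.cons (α := fun _ => Bool) false v) := by
  classical
  ext α : 1
  rw [map_add, MvPowerSeries.coeff_C_mul]
  ext m
  rw [map_add]
  have hL : ∀ w : Fin (n + 1) → Bool, ∀ m : Fin 2 →₀ ℕ,
      MvPowerSeries.coeff m (MvPowerSeries.coeff α (L w)) = ((pairs w (m 0) (m 1) α).ncard : ℤ) :=
    fun w m => rfl
  rw [hL, hL, q, MvPowerSeries.X_def, MvPowerSeries.coeff_monomial_mul, hL, ncard_pairs_snoc]
  push_cast
  congr 1
  have hle : (Finsupp.single (0 : Fin 2) 1 ≤ m) ↔ 1 ≤ m 0 := by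
    rw [Finsupp.single_le_iff]
  simp only [hle, one_mul]
  simp

end Pool.Agent.Results.MP_c90a8c_co.LinkRecurrence
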